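import Pool.Agent.Q33.Conv.Two
import Pool.Agent.Q33.Fam.ThreeB
import Pool.Agent.Q33.Fam.Ratio

set_option autoImplicit false
set_option linter.all false

/-! The parts of the convolution sums prime to 2. -/

namespace Pool.Agent.Q33.Conv

open Finset
open Pool.Agent.Q33.Fam (fp fs fp_cons fp_nil fs_cons fs_nil fp_ne_zero val_le Q Q_sum Q_ratio Q_dvd fl)

/-- Landau's criterion for primes not dividing `B`. -/
theorem landau_coprime (B : ℕ) (hB : B ≠ 0) (den num : List ℕ)
    (h : ∀ p i : ℕ, p.Prime → ¬ p ∣ B → 1 ≤ i → fs den (p ^ i) ≤ fs num (p ^ i)) :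
    ∃ e : ℕ, fp den ∣ B ^ e * fp num := by
  refine ⟨fp den, ?_⟩
  have h0 : B ^ fp den * fp num ≠ 0 := Nat.mul_ne_zero (pow_ne_zero _ hB) (fp_ne_zero num)
  rw [← Nat.factorization_le_iff_dvd (fp_ne_zero den) h0]
  intro p
  by_cases hp : p.Prime
  · have := Fact.mk hp
    rw [Nat.factorization_def _ hp, Nat.factorization_def _ hp]
    rw [padicValNat.mul (pow_ne_zero _ hB) (fp_ne_zero num), padicValNat.pow]
    by_cases h2 : p ∣ B
    · have h3 : 1 ≤ padicValNat p B := one_le_padicValNat_of_dvd hB h2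
      have h4 : padicValNat p (fp den) ≤ fp den := by
        have h5 : p ^ padicValNat p (fp den) ≤ fp den :=
          Nat.le_of_dvd (Nat.pos_of_ne_zero (fp_ne_zero den)) pow_padicValNat_dvd
        exact le_trans (Nat.lt_pow_self hp.one_lt).le h5
      have h6 := Nat.mul_le_mul_left (fp den) h3
      rw [mul_one] at h6
      omega
    · have h3 : padicValNat p (fp den) ≤ padicValNat p (fp num) := by
        apply val_le p hp
        intro i hi
        exact h p i hp h2 hi
      omega
  · rw [Nat.factorization_eq_zero_of_not_prime _ hp, Nat.factorization_eq_zero_of_not_prime _ hp]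

lemma SC (a b q : ℕ) (hq : 0 < q) : a / q + b / q + (a + b) / q ≤ (2 * a) / q + (2 * b) / q := by
  have h1 := Nat.div_add_mod a q
  have h2 := Nat.div_add_mod b q
  have h3 := Nat.mod_lt a hq
  have h4 := Nat.mod_lt b hq
  generalize a / q = x at *
  generalize b / q = y at *
  generalize a % q = r at *
  generalize b % q = t at *
  have e1 : (a + b) / q = x + y + (r + t) / q := by
    rw [← h1, ← h2]
    have : q * x + r + (q * y + t) = (r + t) + q * (x + y) := by ring
    rw [this, Nat.add_mul_div_left _ _ hq]; ring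
  have e2 : (2 * a) / q = 2 * x + (2 * r) / q := by
    rw [← h1]
    have : 2 * (q * x + r) = 2 * r + q * (2 * x) := by ring
    rw [this, Nat.add_mul_div_left _ _ hq]; ring
  have e3 : (2 * b) / q = 2 * y + (2 * t) / q := by
    rw [← h2]
    have : 2 * (q * y + t) = 2 * t + q * (2 * y) := by ring
    rw [this, Nat.add_mul_div_left _ _ hq]; ring
  rw [e1, e2, e3]
  have h5 : (r + t) / q ≤ (2 * r) / q + (2 * t) / q := by
    rcases Nat.lt_or_ge (r + t) q with h | h
    · rw [Nat.div_eq_of_lt h]; exact Nat.zero_le _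
    · have h6 : (r + t) / q ≤ 1 := by
        have : (r + t) / q < 2 := Nat.div_lt_of_lt_mul (by omega)
        omega
      rcases Nat.lt_or_ge (2 * r) q with h7 | h7
      · have : 1 ≤ (2 * t) / q := (Nat.le_div_iff_mul_le hq).mpr (by omega)
        generalize (2 * t) / q = A at *
        generalize (2 * r) / q = B at *
        generalize (r + t) / q = C at *
        omega
      · have : 1 ≤ (2 * r) / q := (Nat.le_div_iff_mul_le hq).mpr (by omega)
        generalize (2 * t) / q = A at *
        generalize (2 * r) / q = B at *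
        generalize (r + t) / q = C at *
        omega
  omega

lemma core (q r t : ℕ) (hq : 5 ≤ q) (ho : q % 2 = 1) (hr : r < q) (ht : t < q) (δ : ℕ) (hδ : δ ≤ 1)
    (h : δ = 1 → 2 * r + 2 * t = q + 1 ∨ 2 * r + 2 * t = 3 * q + 1) :
    (3 * r) / q + (2 * r) / q + (3 * t) / q + (2 * t) / q + (3 * r + 3 * t) / q + δ ≤
      (6 * r) / q + (6 * t) / q + (r + t) / q + (2 * r + 2 * t) / q := by
  have hq0 : 0 < q := by omega
  have h1 := SC (3 * r) (3 * t) q hq0
  have e1 : 2 * (3 * r) = 6 * r := by ring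
  have e2 : 2 * (3 * t) = 6 * t := by ring
  rw [e1, e2] at h1
  have h2 : (2 * r) / q + (2 * t) / q ≤ (2 * r + 2 * t) / q := Nat.add_div_le_add_div _ _ _
  rcases Nat.eq_zero_or_pos δ with h0 | h0
  · generalize (2 * r + 2 * t) / q = A at *
    generalize (6 * r) / q = B at *
    generalize (6 * t) / q = C at *
    generalize (3 * r + 3 * t) / q = E at *
    generalize (r + t) / q = F at *
    generalize (3 * r) / q = G at *
    generalize (3 * t) / q = H at *
    generalize (2 * r) / q = I at *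
    generalize (2 * t) / q = J at *
    omega
  · have hd : δ = 1 := by omega
    rcases h hd with h3 | h3
    · have f1 : 1 ≤ (2 * r + 2 * t) / q := (Nat.le_div_iff_mul_le hq0).mpr (by omega)
      rcases Nat.lt_or_ge (2 * r) q with h4 | h4
      · have g1 : (2 * r) / q = 0 := Nat.div_eq_of_lt h4
        rcases Nat.lt_or_ge (2 * t) q with h5 | h5
        · have g2 : (2 * t) / q = 0 := Nat.div_eq_of_lt h5
          clear h h5 h4
          generalize (2 * r + 2 * t) / q = A at *
          generalize (6 * r) / q = B at *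
          generalize (6 * t) / q = C at *
          generalize (3 * r + 3 * t) / q = E at *
          generalize (r + t) / q = F at *
          generalize (3 * r) / q = G at *
          generalize (3 * t) / q = H at *
          generalize (2 * r) / q = I at *
          generalize (2 * t) / q = J at *
          omega
        · have hr0 : r = 0 := by omega
          subst hr0
          have i1 : 3 ≤ (6 * t) / q := (Nat.le_div_iff_mul_le hq0).mpr (by omega)
          have i2 : (3 * t) / q < 2 := Nat.div_lt_of_lt_mul (by omega)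
          have i3 : (3 * 0 + 3 * t) / q < 2 := Nat.div_lt_of_lt_mul (by omega)
          have i4 : (3 * 0) / q = 0 := by simp
          have i5 : (2 * t) / q < 2 := Nat.div_lt_of_lt_mul (by omega)
          have i7 := Nat.zero_le ((0 + t) / q)
          have i8 := Nat.zero_le ((6 * 0) / q)
          clear h h5 h4
          generalize (2 * 0 + 2 * t) / q = A at *
          generalize (6 * 0) / q = B at *
          generalize (6 * t) / q = C at *
          generalize (3 * 0 + 3 * t) / q = E at *
          generalize (0 + t) / q = F at *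
          generalize (3 * 0) / q = G at *
          generalize (3 * t) / q = H at *
          generalize (2 * 0) / q = I at *
          generalize (2 * t) / q = J at *
          omega
      · have ht0 : t = 0 := by omega
        subst ht0
        have i1 : 3 ≤ (6 * r) / q := (Nat.le_div_iff_mul_le hq0).mpr (by omega)
        have i2 : (3 * r) / q < 2 := Nat.div_lt_of_lt_mul (by omega)
        have i3 : (3 * r + 3 * 0) / q < 2 := Nat.div_lt_of_lt_mul (by omega)
        have i4 : (3 * 0) / q = 0 := by simp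
        have i5 : (2 * r) / q < 2 := Nat.div_lt_of_lt_mul (by omega)
        have i6 : (2 * 0) / q = 0 := by simp
        clear h h4
        generalize (2 * r + 2 * 0) / q = A at *
        generalize (6 * r) / q = B at *
        generalize (6 * 0) / q = C at *
        generalize (3 * r + 3 * 0) / q = E at *
        generalize (r + 0) / q = F at *
        generalize (3 * r) / q = G at *
        generalize (3 * 0) / q = H at *
        generalize (2 * r) / q = I at *
        generalize (2 * 0) / q = J at *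
        omega
    · have f1 : 1 ≤ (r + t) / q := (Nat.le_div_iff_mul_le hq0).mpr (by omega)
      clear h
      generalize (2 * r + 2 * t) / q = A at *
      generalize (6 * r) / q = B at *
      generalize (6 * t) / q = C at *
      generalize (3 * r + 3 * t) / q = E at *
      generalize (r + t) / q = F at *
      generalize (3 * r) / q = G at *
      generalize (3 * t) / q = H at *
      generalize (2 * r) / q = I at *
      generalize (2 * t) / q = J at *
      omega

lemma floors (K M q : ℕ) (hq : 5 ≤ q) (ho : q % 2 = 1) (h1 : 1 ≤ K + M) :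
    fs [3 * K, 2 * K, K, 3 * M, 2 * M, M, 3 * (K + M), 2 * (K + M) - 1] q ≤
      fs [6 * K, 6 * M, K + M, 2 * (K + M), 2 * (K + M) - 2] q := by
  have hq0 : 0 < q := by omega
  simp only [fs_cons, fs_nil]
  have hd : (2 * (K + M) - 1) / q = (2 * (K + M) - 2) / q + if q ∣ 2 * (K + M) - 1 then 1 else 0 := by
    obtain ⟨m, hm⟩ : ∃ m, 2 * (K + M) - 1 = m + 1 := ⟨2 * (K + M) - 2, by omega⟩
    have hm2 : 2 * (K + M) - 2 = m := by omega
    rw [hm, hm2, Nat.succ_div]
  rw [hd]
  obtain ⟨x, r, hr, rfl⟩ : ∃ x r, r < q ∧ K = q * x + r := ⟨K / q, K % q, Nat.mod_lt _ hq0, (Nat.div_add_mod K q).symm⟩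
  obtain ⟨y, t, ht, rfl⟩ : ∃ y t, t < q ∧ M = q * y + t := ⟨M / q, M % q, Nat.mod_lt _ hq0, (Nat.div_add_mod M q).symm⟩
  have F : ∀ a b : ℕ, (a * (q * x + r) + b * (q * y + t)) / q = a * x + b * y + (a * r + b * t) / q := by
    intro a b
    have := fl a b 0 q r t x y hq0
    simpa using this
  have k1 : (3 * (q * x + r)) / q = 3 * x + (3 * r) / q := by simpa using F 3 0
  have k2 : (2 * (q * x + r)) / q = 2 * x + (2 * r) / q := by simpa using F 2 0
  have k3 : (q * x + r) / q = x := by
    have := F 1 0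
    simp only [one_mul, zero_mul, add_zero] at this
    rw [this, Nat.div_eq_of_lt hr]; ring
  have k4 : (3 * (q * y + t)) / q = 3 * y + (3 * t) / q := by simpa using F 0 3
  have k5 : (2 * (q * y + t)) / q = 2 * y + (2 * t) / q := by simpa using F 0 2
  have k6 : (q * y + t) / q = y := by
    have := F 0 1
    simp only [one_mul, zero_mul, zero_add] at this
    rw [this, Nat.div_eq_of_lt ht]; ring
  have k7 : (3 * (q * x + r + (q * y + t))) / q = 3 * x + 3 * y + (3 * r + 3 * t) / q := by
    have := F 3 3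
    rw [← mul_add] at this
    exact this
  have k8 : (6 * (q * x + r)) / q = 6 * x + (6 * r) / q := by simpa using F 6 0
  have k9 : (6 * (q * y + t)) / q = 6 * y + (6 * t) / q := by simpa using F 0 6
  have k10 : (q * x + r + (q * y + t)) / q = x + y + (r + t) / q := by
    have := F 1 1
    simpa using this
  have k11 : (2 * (q * x + r + (q * y + t))) / q = 2 * x + 2 * y + (2 * r + 2 * t) / q := by
    have := F 2 2
    rw [← mul_add] at this
    exact this
  rw [k1, k2, k3, k4, k5, k6, k7, k8, k9, k10, k11]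
  have key := core q r t hq ho hr ht (if q ∣ 2 * (q * x + r + (q * y + t)) - 1 then 1 else 0) (by split_ifs <;> omega)
    (by
      intro h
      have hdv : q ∣ 2 * (q * x + r + (q * y + t)) - 1 := by
        by_contra hc
        rw [if_neg hc] at h
        omega
      have h2 : (q : ℤ) ∣ 2 * (r + t) - 1 := by
        have h3 : (q : ℤ) ∣ 2 * (q * x + r + (q * y + t)) - 1 := by
          have : ((2 * (q * x + r + (q * y + t)) - 1 : ℕ) : ℤ) = 2 * (q * x + r + (q * y + t)) - 1 := by
            rw [Nat.cast_sub (by omega)]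
            push_cast
            ring
          rw [← this]
          exact_mod_cast hdv
        have h4 : (2 * ((q : ℤ) * x + r + (q * y + t)) - 1) = (2 * (r + t) - 1) + q * (2 * x + 2 * y) := by ring
        rw [h4] at h3
        exact (dvd_add_left (Dvd.intro _ rfl)).mp h3
      obtain ⟨j, hj⟩ := h2
      have hr' : (r : ℤ) < q := by exact_mod_cast hr
      have ht' : (t : ℤ) < q := by exact_mod_cast ht
      have hq' : (5 : ℤ) ≤ q := by exact_mod_cast hq
      have hj1 : 0 < j := by
        by_contra hc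
        push Not at hc
        rcases eq_or_lt_of_le hc with h0 | h0
        · rw [h0, mul_zero] at hj; omega
        · have : (q : ℤ) * j ≤ -q := by nlinarith
          omega
      have hj2 : j < 4 := by
        by_contra hc
        push Not at hc
        nlinarith
      have hj3 : j % 2 = 1 := by
        rcases Int.emod_two_eq_zero_or_one j with h0 | h0
        · obtain ⟨l, hl⟩ : ∃ l, j = 2 * l := ⟨j / 2, by omega⟩
          rw [hl] at hj
          have : (q : ℤ) * (2 * l) = 2 * (q * l) := by ring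
          omega
        · exact h0
      have : j = 1 ∨ j = 3 := by omega
      rcases this with h5 | h5
      · left
        rw [h5] at hj
        omega
      · right
        rw [h5] at hj
        omega)
  omega

/-- the modulus -/
def N (n : ℕ) : ℕ := (2 * n - 1) * (3 * n).choose n

lemma N_pos (n : ℕ) (hn : 1 ≤ n) : 0 < N n := Nat.mul_pos (by omega) (Nat.choose_pos (by omega))

lemma t_fact (k : ℕ) : (t k : ℚ) = ((6 * k).factorial : ℚ) /
    (((3 * k).factorial : ℚ) * ((2 * k).factorial : ℚ) * (k.factorial : ℚ)) := by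
  unfold t
  push_cast
  rw [Nat.cast_choose ℚ (show 3 * k ≤ 6 * k by omega), Nat.cast_choose ℚ (show k ≤ 3 * k by omega)]
  have e1 : 6 * k - 3 * k = 3 * k := by omega
  have e2 : 3 * k - k = 2 * k := by omega
  rw [e1, e2]
  have h1 : ((3 * k).factorial : ℚ) ≠ 0 := by exact_mod_cast Nat.factorial_ne_zero _
  field_simp

lemma termQ (K M : ℕ) (h1 : 1 ≤ K + M) : Q 6 ((N (K + M) : ℕ) : ℤ) (((t K * t M : ℕ) : ℤ) : ℚ) := by
  obtain ⟨e, he⟩ := landau_coprime 6 (by norm_num)
    [3 * K, 2 * K, K, 3 * M, 2 * M, M, 3 * (K + M), 2 * (K + M) - 1]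
    [6 * K, 6 * M, K + M, 2 * (K + M), 2 * (K + M) - 2] (by
      intro p i hp h6 hi
      have hp2 : p ≠ 2 := by rintro rfl; exact h6 (by norm_num)
      have hp3 : p ≠ 3 := by rintro rfl; exact h6 (by norm_num)
      have hp5 : 5 ≤ p := by
        have := hp.two_le
        by_contra hc
        have : p = 4 := by omega
        subst this
        exact absurd hp (by norm_num)
      have hodd : p % 2 = 1 := by
        rcases hp.eq_two_or_odd with h | h
        · exact absurd h hp2
        · exact h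
      apply floors K M (p ^ i) _ _ h1
      · calc 5 ≤ p := hp5
          _ = p ^ 1 := (pow_one p).symm
          _ ≤ p ^ i := Nat.pow_le_pow_right hp.pos hi
      · rw [Nat.pow_mod, hodd]; simp)
  apply Q_ratio 1 _ _ e (by exact_mod_cast he)
  obtain ⟨m, hm⟩ : ∃ m, K + M = m + 1 := ⟨K + M - 1, by omega⟩
  have e1 : 2 * (K + M) - 1 = 2 * m + 1 := by omega
  have e2 : 2 * (K + M) - 2 = 2 * m := by omega
  simp only [fp_cons, fp_nil]
  unfold N
  rw [e1, e2, hm]
  push_cast
  rw [t_fact, t_fact, Nat.cast_choose ℚ (show m + 1 ≤ 3 * (m + 1) by omega)]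
  have e3 : 3 * (m + 1) - (m + 1) = 2 * (m + 1) := by omega
  rw [e3, Nat.factorial_succ (2 * m)]
  have h1 : ((3 * K).factorial : ℚ) ≠ 0 := by exact_mod_cast Nat.factorial_ne_zero _
  have h2 : ((2 * K).factorial : ℚ) ≠ 0 := by exact_mod_cast Nat.factorial_ne_zero _
  have h3 : (K.factorial : ℚ) ≠ 0 := by exact_mod_cast Nat.factorial_ne_zero _
  have h4 : ((3 * M).factorial : ℚ) ≠ 0 := by exact_mod_cast Nat.factorial_ne_zero _
  have h5 : ((2 * M).factorial : ℚ) ≠ 0 := by exact_mod_cast Nat.factorial_ne_zero _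
  have h6 : (M.factorial : ℚ) ≠ 0 := by exact_mod_cast Nat.factorial_ne_zero _
  have h7 : ((m + 1).factorial : ℚ) ≠ 0 := by exact_mod_cast Nat.factorial_ne_zero _
  have h8 : ((3 * (m + 1)).factorial : ℚ) ≠ 0 := by exact_mod_cast Nat.factorial_ne_zero _
  have h9 : ((2 * (m + 1)).factorial : ℚ) ≠ 0 := by exact_mod_cast Nat.factorial_ne_zero _
  have h10 : ((2 * m).factorial : ℚ) ≠ 0 := by exact_mod_cast Nat.factorial_ne_zero _
  have h11 : (2 * (m : ℚ) + 1) ≠ 0 := by positivity
  push_cast
  field_simp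

lemma six_part (n : ℕ) (hn : 1 ≤ n) : ∃ i : ℕ, N n ∣ 6 ^ i * Sn n := by
  have h : Q 6 ((N n : ℕ) : ℤ) (((Sn n : ℕ) : ℤ) : ℚ) := by
    have e : (((Sn n : ℕ) : ℤ) : ℚ) = ∑ k ∈ range (n + 1), (((t k * t (n - k) : ℕ) : ℤ) : ℚ) := by
      unfold Sn
      push_cast
      rfl
    rw [e]
    apply Q_sum
    intro k hk
    have e2 : k + (n - k) = n := by omega
    have := termQ k (n - k) (by omega)
    rw [e2] at this
    exact this
  obtain ⟨i, hi⟩ := Q_dvd h
  refine ⟨i, ?_⟩
  exact_mod_cast hi

/-! ### the 3-adic part -/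

lemma v3_t (k : ℕ) : Fam.v (t k) = Fam.s k := by
  have h1 := Nat.choose_mul_factorial_mul_factorial (n := 6 * k) (k := 3 * k) (by omega)
  have h2 := Nat.choose_mul_factorial_mul_factorial (n := 3 * k) (k := k) (by omega)
  have e1 : 6 * k - 3 * k = 3 * k := by omega
  have e2 : 3 * k - k = 2 * k := by omega
  rw [e1] at h1
  rw [e2] at h2
  have p1 : 0 < (6 * k).choose (3 * k) := Nat.choose_pos (by omega)
  have p2 : 0 < (3 * k).choose k := Nat.choose_pos (by omega)
  have f1 : Fam.v ((6 * k).choose (3 * k) * (3 * k).factorial * (3 * k).factorial) = Fam.v (6 * k).factorial := by rw [h1]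
  have f2 : Fam.v ((3 * k).choose k * k.factorial * (2 * k).factorial) = Fam.v (3 * k).factorial := by rw [h2]
  rw [Fam.v_mul (Nat.mul_ne_zero p1.ne' (Nat.factorial_ne_zero _)) (Nat.factorial_ne_zero _),
    Fam.v_mul p1.ne' (Nat.factorial_ne_zero _), Fam.v_fact, Fam.v_fact] at f1
  rw [Fam.v_mul (Nat.mul_ne_zero p2.ne' (Nat.factorial_ne_zero _)) (Nat.factorial_ne_zero _),
    Fam.v_mul p2.ne' (Nat.factorial_ne_zero _), Fam.v_fact, Fam.v_fact, Fam.v_fact] at f2
  have g1 := Fam.V_mul_add k 0 (by norm_num)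
  have g2 := Fam.V_mul_add (2 * k) 0 (by norm_num)
  rw [add_zero] at g1 g2
  have e3 : 3 * (2 * k) = 6 * k := by ring
  rw [e3] at g2
  have g3 := Fam.s_V k
  unfold t
  rw [Fam.v_mul p1.ne' p2.ne']
  omega

lemma s_shift (i : ℕ) : ∀ n w : ℕ, 2 * n = 3 ^ (i + 1) * (2 * w + 1) + 1 → Fam.s n = Fam.s w + i + 2 := by
  induction i with
  | zero =>
    intro n w h
    have e : n = 3 * w + 2 := by
      rw [zero_add, pow_one] at h; omega
    rw [e, Fam.s_mul_add w 2 (by norm_num)]
  | succ i ih =>
    intro n w h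
    have hp : 3 ^ (i + 1 + 1) = 3 * 3 ^ (i + 1) := by rw [pow_succ]; ring
    rw [hp, mul_assoc] at h
    have hp2 : 3 ^ (i + 1) = 3 * 3 ^ i := by rw [pow_succ]; ring
    have hodd : (3 ^ i * (2 * w + 1)) % 2 = 1 := by
      rw [Nat.mul_mod, Nat.pow_mod]
      norm_num
    have e3 : 3 ^ (i + 1) * (2 * w + 1) = 3 * (3 ^ i * (2 * w + 1)) := by rw [hp2]; ring
    generalize hX : 3 ^ i * (2 * w + 1) = X at *
    rw [e3] at h
    -- 2n = 9X+1, X odd; n' = (3X+1)/2
    obtain ⟨y, hy⟩ : ∃ y, X = 2 * y + 1 := ⟨X / 2, by omega⟩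
    subst hy
    have h1 := ih (3 * y + 2) w (by rw [e3]; ring)
    have e : n = 3 * (3 * y + 1) + 2 := by omega
    rw [Fam.s_mul_add y 2 (by norm_num)] at h1
    rw [e, Fam.s_mul_add (3 * y + 1) 2 (by norm_num), Fam.s_mul_add y 1 (by norm_num)]
    omega

lemma three_val (n : ℕ) (hn : 1 ≤ n) : Fam.v (N n) ≤ Fam.s n := by
  have p1 : 0 < (3 * n).choose n := Nat.choose_pos (by omega)
  have h2 := Nat.choose_mul_factorial_mul_factorial (n := 3 * n) (k := n) (by omega)
  have e2 : 3 * n - n = 2 * n := by omega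
  rw [e2] at h2
  have f2 : Fam.v ((3 * n).choose n * n.factorial * (2 * n).factorial) = Fam.v (3 * n).factorial := by rw [h2]
  rw [Fam.v_mul (Nat.mul_ne_zero p1.ne' (Nat.factorial_ne_zero _)) (Nat.factorial_ne_zero _),
    Fam.v_mul p1.ne' (Nat.factorial_ne_zero _), Fam.v_fact, Fam.v_fact, Fam.v_fact] at f2
  have g1 := Fam.V_mul_add n 0 (by norm_num)
  rw [add_zero] at g1
  have g2 := Fam.s_V (2 * n)
  unfold N
  rw [Fam.v_mul (by omega) p1.ne']
  suffices h : 2 * Fam.v (2 * n - 1) + Fam.s (2 * n) ≤ 2 * Fam.s n by omega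
  rcases Nat.eq_zero_or_pos (Fam.v (2 * n - 1)) with h0 | h0
  · have := Fam.s_add n n
    have e : n + n = 2 * n := by ring
    rw [e] at this
    omega
  · obtain ⟨i, hi⟩ : ∃ i, Fam.v (2 * n - 1) = i + 1 := ⟨Fam.v (2 * n - 1) - 1, by omega⟩
    obtain ⟨u, hu⟩ : 3 ^ Fam.v (2 * n - 1) ∣ 2 * n - 1 := pow_padicValNat_dvd
    rw [hi] at hu
    have hodd : u % 2 = 1 := by
      rcases Nat.mod_two_eq_zero_or_one u with h1 | h1
      · obtain ⟨x, hx⟩ : ∃ x, u = 2 * x := ⟨u / 2, by omega⟩
        rw [hx] at hu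
        have : 3 ^ (i + 1) * (2 * x) = 2 * (3 ^ (i + 1) * x) := by ring
        omega
      · exact h1
    obtain ⟨w, hw⟩ : ∃ w, u = 2 * w + 1 := ⟨u / 2, by omega⟩
    rw [hw] at hu
    have h3 : 2 * n = 3 ^ (i + 1) * (2 * w + 1) + 1 := by omega
    have h4 := s_shift i n w h3
    have h5 : Fam.s (2 * n) = Fam.s (2 * w + 1) + 1 := by
      have e : 3 ^ (i + 1) * (2 * w + 1) + 1 = 3 * (3 ^ i * (2 * w + 1)) + 1 := by rw [pow_succ]; ring
      rw [h3, e, Fam.s_mul_add _ 1 (by norm_num)]
      congr 1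
      clear * -
      induction i with
      | zero => rw [pow_zero, one_mul]
      | succ i ih =>
        have : 3 ^ (i + 1) * (2 * w + 1) = 3 * (3 ^ i * (2 * w + 1)) := by rw [pow_succ]; ring
        rw [this, Fam.s_mul, ih]
    have h6 := Fam.s_succ (2 * w)
    have h7 := Fam.s_add w w
    have e7 : w + w = 2 * w := by ring
    rw [e7] at h7
    omega

lemma three_part (n : ℕ) (hn : 1 ≤ n) : 3 ^ Fam.v (N n) ∣ Sn n := by
  unfold Sn
  apply dvd_sum
  intro k hk
  rw [mem_range] at hk
  apply Fam.dvd_of_v (Nat.mul_ne_zero (t_pos k).ne' (t_pos _).ne')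
  rw [Fam.v_mul (t_pos k).ne' (t_pos _).ne', v3_t, v3_t]
  have h1 := three_val n hn
  have h2 := Fam.s_add k (n - k)
  have e : k + (n - k) = n := by omega
  rw [e] at h2
  omega

/-! ### assembly -/

lemma v2_N (n : ℕ) (hn : 1 ≤ n) : v (N n) + s (3 * n) = 2 * s n := by
  unfold N
  have p1 : 0 < (3 * n).choose n := Nat.choose_pos (by omega)
  rw [v_mul (by omega) p1.ne']
  have h := v_choose (3 * n) n (by omega)
  have e2 : 3 * n - n = 2 * n := by omega
  rw [e2, s_mul] at h
  have h0 : v (2 * n - 1) = 0 := padicValNat.eq_zero_of_not_dvd (by omega)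
  omega

/-- `N n` divides `x` if it does so up to powers of 6 and locally at 2 and 3. -/
lemma local_dvd (m x i : ℕ) (hm : m ≠ 0) (h : m ∣ 6 ^ i * x) (e : ℕ) (h2 : 2 ^ (v m + e) ∣ x) (h3 : 3 ^ Fam.v m ∣ x) :
    2 ^ e * m ∣ x := by
  have h4 : m = 2 ^ v m * od m := od_eq m
  have h5 := od_odd m hm
  obtain ⟨y, hy⟩ : 3 ^ Fam.v m ∣ od m := by
    have h6 : 3 ^ Fam.v m ∣ 2 ^ v m * od m := by rw [← h4]; exact pow_padicValNat_dvd
    exact (Nat.Coprime.pow _ _ (by norm_num)).dvd_of_dvd_mul_left h6
  have hy3 : ¬ 3 ∣ y := by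
    rintro ⟨z, hz⟩
    apply pow_succ_padicValNat_not_dvd (p := 3) hm
    refine ⟨2 ^ v m * z, ?_⟩
    change m = 3 ^ (Fam.v m + 1) * (2 ^ v m * z)
    conv_lhs => rw [h4, hy, hz]
    rw [pow_succ]
    ring
  have hy2 : y % 2 = 1 := by
    rcases Nat.mod_two_eq_zero_or_one y with h1 | h1
    · obtain ⟨z, hz⟩ : ∃ z, y = 2 * z := ⟨y / 2, by omega⟩
      rw [hz] at hy
      have : 3 ^ Fam.v m * (2 * z) = 2 * (3 ^ Fam.v m * z) := by ring
      omega
    · exact h1
  have hyx : y ∣ x := by
    have hm' : y ∣ m := by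
      refine ⟨2 ^ v m * 3 ^ Fam.v m, ?_⟩
      conv_lhs => rw [h4, hy]
      ring
    have h6 : y ∣ 6 ^ i * x := dvd_trans hm' h
    apply Nat.Coprime.dvd_of_dvd_mul_left _ h6
    apply Nat.Coprime.pow_right
    have c2 : Nat.Coprime y 2 := by
      rw [Nat.coprime_comm, Nat.coprime_two_left, Nat.odd_iff]; exact hy2
    have c3 : Nat.Coprime y 3 := by
      rw [Nat.coprime_comm]
      exact (Nat.Prime.coprime_iff_not_dvd Nat.prime_three).mpr hy3
    exact Nat.Coprime.mul_right c2 c3
  have c2 : Nat.Coprime (2 ^ (v m + e)) y := by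
    apply Nat.Coprime.pow_left
    rw [Nat.coprime_two_left, Nat.odd_iff]; exact hy2
  have c3 : Nat.Coprime (2 ^ (v m + e) * y) (3 ^ Fam.v m) := by
    apply Nat.Coprime.pow_right
    apply Nat.Coprime.mul_left
    · apply Nat.Coprime.pow_left; norm_num
    · rw [Nat.coprime_comm]
      exact (Nat.Prime.coprime_iff_not_dvd Nat.prime_three).mpr hy3
  have h7 := c3.mul_dvd_of_dvd_of_dvd (c2.mul_dvd_of_dvd_of_dvd h2 hyx) h3
  have e8 : 2 ^ e * m = 2 ^ (v m + e) * y * 3 ^ Fam.v m := by
    conv_lhs => rw [h4, hy]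
    rw [pow_add]
    ring
  rw [e8]
  exact h7

lemma dvd_pow_two (n : ℕ) (hn : 1 ≤ n) : (∃ j, n = 2 ^ j) → 8 * N n ∣ Sn n ∧ ¬ 16 * N n ∣ Sn n := by
  rintro ⟨j, rfl⟩
  obtain ⟨i, hi⟩ := six_part (2 ^ j) hn
  obtain ⟨x, hx, hx2⟩ := Sn_pow j
  have hv := v2_N (2 ^ j) hn
  have hs : s (3 * 2 ^ j) = 2 := by
    have : s 3 = 2 := by
      have := s_mul_add 1 1 (by norm_num)
      rw [s_one] at this
      exact this
    clear * - this
    induction j with
    | zero => rw [pow_zero]; exact this
    | succ j ih =>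
      have e : 3 * 2 ^ (j + 1) = 2 * (3 * 2 ^ j) := by rw [pow_succ]; ring
      rw [e, s_mul, ih]
  rw [hs, s_two_pow] at hv
  have hv0 : v (N (2 ^ j)) = 0 := by omega
  constructor
  · have := local_dvd (N (2 ^ j)) (Sn (2 ^ j)) i (N_pos _ hn).ne' hi 3
      (by rw [hv0, hx]; norm_num) (three_part _ hn)
    exact this
  · intro h
    have h16 : 16 ∣ Sn (2 ^ j) := dvd_trans (Dvd.intro _ rfl) h
    omega

lemma dvd_not_pow_two (n : ℕ) (hn : 1 ≤ n) (h : ¬ ∃ j, n = 2 ^ j) : 16 * N n ∣ Sn n := by
  push Not at h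
  obtain ⟨i, hi⟩ := six_part n hn
  have hv := v2_N n hn
  have h3 := s_three_mul n hn
  have h4 := Sn_npow n hn h
  have := local_dvd (N n) (Sn n) i (N_pos _ hn).ne' hi 4
    (dvd_trans (pow_dvd_pow 2 (by omega)) h4) (three_part _ hn)
  exact this

end Pool.Agent.Q33.Conv
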