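import Mathlib

set_option autoImplicit false
set_option linter.all false

/-! 2-adic part of the convolution sums. -/

namespace Pool.Agent.Q33.Conv

open Finset

/-- valuation of the factorial -/
def V (n : ℕ) : ℕ := padicValNat 2 n.factorial

/-- binary digit sum -/
def s (n : ℕ) : ℕ := n - V n

/-- 2-adic valuation -/
def v (n : ℕ) : ℕ := padicValNat 2 n

lemma s_V (n : ℕ) : s n + V n = n := by
  have h := sub_one_mul_padicValNat_factorial (p := 2) n
  have h2 := Nat.digit_sum_le 2 n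
  unfold s V
  omega

lemma V_mul_add (x r : ℕ) (hr : r < 2) : V (2 * x + r) = V x + x := by
  unfold V
  rw [padicValNat_factorial_mul_add x hr, padicValNat_factorial_mul]

lemma V_mul (x : ℕ) : V (2 * x) = V x + x := V_mul_add x 0 (by norm_num)

lemma s_mul_add (x r : ℕ) (hr : r < 2) : s (2 * x + r) = s x + r := by
  have h1 := s_V (2 * x + r)
  have h2 := s_V x
  have h3 := V_mul_add x r hr
  omega

lemma s_mul (x : ℕ) : s (2 * x) = s x := s_mul_add x 0 (by norm_num)

lemma V_add (x y : ℕ) : V x + V y ≤ V (x + y) := by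
  unfold V
  rw [← padicValNat.mul (Nat.factorial_ne_zero _) (Nat.factorial_ne_zero _)]
  exact (padicValNat_dvd_iff_le (Nat.factorial_ne_zero _)).mp
    (dvd_trans pow_padicValNat_dvd (Nat.factorial_mul_factorial_dvd_factorial_add x y))

lemma s_add (x y : ℕ) : s (x + y) ≤ s x + s y := by
  have h1 := s_V (x + y)
  have h2 := s_V x
  have h3 := s_V y
  have h4 := V_add x y
  omega

lemma s_zero : s 0 = 0 := by
  have := s_V 0
  omega

lemma s_one : s 1 = 1 := by
  have := s_mul_add 0 1 (by norm_num)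
  rw [s_zero] at this
  simpa using this

lemma s_pos (x : ℕ) (hx : 1 ≤ x) : 1 ≤ s x := by
  induction x using Nat.strong_induction_on with
  | _ x ih =>
    have h := Nat.div_add_mod x 2
    have h2 := Nat.mod_lt x (show 0 < 2 by norm_num)
    have h3 := s_mul_add (x / 2) (x % 2) h2
    rw [h] at h3
    rcases Nat.eq_zero_or_pos (x / 2) with h4 | h4
    · omega
    · have := ih (x / 2) (by omega) h4
      omega

lemma s_eq_one (x : ℕ) (hx : s x = 1) : ∃ j : ℕ, x = 2 ^ j := by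
  induction x using Nat.strong_induction_on with
  | _ x ih =>
    have h := Nat.div_add_mod x 2
    have h2 := Nat.mod_lt x (show 0 < 2 by norm_num)
    have h3 := s_mul_add (x / 2) (x % 2) h2
    rw [h] at h3
    rcases Nat.eq_zero_or_pos (x / 2) with h4 | h4
    · rw [h4, s_zero] at h3
      exact ⟨0, by omega⟩
    · have h5 := s_pos (x / 2) h4
      obtain ⟨j, hj⟩ := ih (x / 2) (by omega) (by omega)
      refine ⟨j + 1, ?_⟩
      rw [pow_succ, ← hj]
      omega

lemma s_two_pow (j : ℕ) : s (2 ^ j) = 1 := by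
  induction j with
  | zero => rw [pow_zero]; exact s_one
  | succ j ih =>
    have : 2 ^ (j + 1) = 2 * 2 ^ j := by rw [pow_succ]; ring
    rw [this, s_mul, ih]

lemma s_three_mul (n : ℕ) (hn : 1 ≤ n) : 2 ≤ s (3 * n) := by
  have h1 := s_pos (3 * n) (by omega)
  by_contra h
  obtain ⟨j, hj⟩ := s_eq_one (3 * n) (by omega)
  have h3 : 3 ∣ 2 ^ j := ⟨n, hj.symm⟩
  have := Nat.prime_three.dvd_of_dvd_pow h3
  omega

lemma v_mul {x y : ℕ} (hx : x ≠ 0) (hy : y ≠ 0) : v (x * y) = v x + v y := padicValNat.mul hx hy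

lemma v_fact (n : ℕ) : v n.factorial = V n := rfl

lemma v_choose (n k : ℕ) (hk : k ≤ n) : v (n.choose k) + s n = s k + s (n - k) := by
  have h := Nat.choose_mul_factorial_mul_factorial hk
  have h0 : 0 < n.choose k := Nat.choose_pos hk
  have h2 : v (n.choose k * k.factorial * (n - k).factorial) = v n.factorial := by rw [h]
  rw [v_mul (Nat.mul_ne_zero h0.ne' (Nat.factorial_ne_zero _)) (Nat.factorial_ne_zero _),
    v_mul h0.ne' (Nat.factorial_ne_zero _), v_fact, v_fact, v_fact] at h2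
  have h3 := s_V n
  have h4 := s_V k
  have h5 := s_V (n - k)
  omega

/-- `t k = C(6k,3k) C(3k,k)` -/
def t (k : ℕ) : ℕ := (6 * k).choose (3 * k) * (3 * k).choose k

lemma t_pos (k : ℕ) : 0 < t k := Nat.mul_pos (Nat.choose_pos (by omega)) (Nat.choose_pos (by omega))

lemma v_t (k : ℕ) : v (t k) = 2 * s k := by
  unfold t
  rw [v_mul (Nat.choose_pos (by omega)).ne' (Nat.choose_pos (by omega)).ne']
  have h1 := v_choose (6 * k) (3 * k) (by omega)
  have h2 := v_choose (3 * k) k (by omega)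
  have e1 : 6 * k - 3 * k = 3 * k := by omega
  have e2 : 3 * k - k = 2 * k := by omega
  rw [e1] at h1
  rw [e2, s_mul] at h2
  have h3 : s (6 * k) = s (3 * k) := by
    have : 6 * k = 2 * (3 * k) := by ring
    rw [this, s_mul]
  omega

/-- odd part -/
def od (n : ℕ) : ℕ := n / 2 ^ v n

lemma od_eq (n : ℕ) : n = 2 ^ v n * od n := by
  unfold od v
  exact (Nat.mul_div_cancel' pow_padicValNat_dvd).symm

lemma od_odd (n : ℕ) (hn : n ≠ 0) : od n % 2 = 1 := by
  by_contra h
  have h2 : 2 ∣ od n := by omega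
  obtain ⟨x, hx⟩ := h2
  apply pow_succ_padicValNat_not_dvd (p := 2) hn
  refine ⟨x, ?_⟩
  change n = 2 ^ (v n + 1) * x
  have := od_eq n
  rw [hx] at this
  rw [pow_succ]
  linarith

/-- symmetric sums -/
lemma sum_sym_even (n : ℕ) (h : ℕ → ℤ) (hs : ∀ k, k ≤ n → h (n - k) = h k) (hm : ∀ k, 2 * k = n → (2 : ℤ) ∣ h k) :
    (2 : ℤ) ∣ ∑ k ∈ range (n + 1), h k := by
  have key : ((∑ k ∈ range (n + 1), h k : ℤ) : ZMod 2) = 0 := by
    push_cast
    apply Finset.sum_involution (fun k _ => n - k)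
    · intro k hk
      rw [mem_range] at hk
      rw [hs k (by omega)]
      exact CharTwo.add_self_eq_zero _
    · intro k hk hne heq
      rw [mem_range] at hk
      apply hne
      have : 2 * k = n := by omega
      exact (ZMod.intCast_zmod_eq_zero_iff_dvd _ 2).mpr (hm k this)
    · intro k hk
      rw [mem_range] at hk ⊢
      omega
    · intro k hk
      rw [mem_range] at hk
      show n - (n - k) = k
      omega
  exact (ZMod.intCast_zmod_eq_zero_iff_dvd _ 2).mp key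

/-- the convolution -/
def Sn (n : ℕ) : ℕ := ∑ k ∈ range (n + 1), t k * t (n - k)

def c (n k : ℕ) : ℕ := s k + s (n - k) - s n

lemma c_eq (n k : ℕ) (hk : k ≤ n) : s k + s (n - k) = s n + c n k := by
  have := s_add k (n - k)
  have e : k + (n - k) = n := by omega
  rw [e] at this
  unfold c
  omega

lemma term_t (n k : ℕ) (hk : k ≤ n) : t k * t (n - k) = 4 ^ s n * (4 ^ c n k * (od (t k) * od (t (n - k)))) := by
  have h1 := od_eq (t k)
  have h2 := od_eq (t (n - k))
  rw [v_t] at h1 h2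
  have h3 := c_eq n k hk
  have e : (4 : ℕ) ^ s n * 4 ^ c n k = 2 ^ (2 * s k) * 2 ^ (2 * s (n - k)) := by
    rw [← pow_add, ← pow_add, ← h3]
    have : (4 : ℕ) = 2 ^ 2 := by norm_num
    rw [this, ← pow_mul]
    congr 1
    ring
  calc t k * t (n - k) = (2 ^ (2 * s k) * od (t k)) * (2 ^ (2 * s (n - k)) * od (t (n - k))) := by
        rw [← h1, ← h2]
    _ = (2 ^ (2 * s k) * 2 ^ (2 * s (n - k))) * (od (t k) * od (t (n - k))) := by ring
    _ = 4 ^ s n * (4 ^ c n k * (od (t k) * od (t (n - k)))) := by rw [← e]; ring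

lemma term_c (n k : ℕ) (hk : k ≤ n) : (n.choose k) ^ 2 = 4 ^ c n k * (od (n.choose k)) ^ 2 := by
  have h1 := od_eq (n.choose k)
  have h2 := v_choose n k hk
  have h3 := c_eq n k hk
  have h4 : v (n.choose k) = c n k := by omega
  rw [h4] at h1
  conv_lhs => rw [h1]
  rw [mul_pow, ← pow_mul]
  have : (4 : ℕ) = 2 ^ 2 := by norm_num
  rw [this, ← pow_mul]
  congr 2
  ring

/-- the cofactor -/
def U (n : ℕ) : ℕ := ∑ k ∈ range (n + 1), 4 ^ c n k * (od (t k) * od (t (n - k)))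

lemma Sn_eq (n : ℕ) : Sn n = 4 ^ s n * U n := by
  unfold Sn U
  rw [mul_sum]
  apply sum_congr rfl
  intro k hk
  rw [mem_range] at hk
  exact term_t n k (by omega)

lemma U_mod (n : ℕ) (hn : 1 ≤ n) : (4 : ℤ) ∣ (U n : ℤ) - ((2 * n).choose n : ℤ) := by
  have h1 : ((2 * n).choose n : ℤ) = ∑ k ∈ range (n + 1), ((4 ^ c n k * (od (n.choose k)) ^ 2 : ℕ) : ℤ) := by
    rw [← Nat.sum_range_choose_sq n]
    push_cast
    apply sum_congr rfl
    intro k hk
    rw [mem_range] at hk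
    have := term_c n k (by omega)
    exact_mod_cast this
  rw [h1]
  unfold U
  push_cast
  rw [← sum_sub_distrib]
  have h2 : ∀ k ∈ range (n + 1), ((4 : ℤ) ^ c n k * ((od (t k) : ℤ) * (od (t (n - k)) : ℤ)) - 4 ^ c n k * (od (n.choose k) : ℤ) ^ 2)
      = 2 * (4 ^ c n k * (((od (t k) : ℤ) * (od (t (n - k)) : ℤ) - (od (n.choose k) : ℤ) ^ 2) / 2)) := by
    intro k hk
    rw [mem_range] at hk
    have a1 := od_odd (t k) (t_pos k).ne'
    have a2 := od_odd (t (n - k)) (t_pos (n - k)).ne'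
    have a3 := od_odd (n.choose k) (Nat.choose_pos (by omega)).ne'
    obtain ⟨x, hx⟩ : ∃ x : ℤ, (od (t k) : ℤ) = 2 * x + 1 := ⟨(od (t k) : ℤ) / 2, by omega⟩
    obtain ⟨y, hy⟩ : ∃ y : ℤ, (od (t (n - k)) : ℤ) = 2 * y + 1 := ⟨(od (t (n - k)) : ℤ) / 2, by omega⟩
    obtain ⟨z, hz⟩ : ∃ z : ℤ, (od (n.choose k) : ℤ) = 2 * z + 1 := ⟨(od (n.choose k) : ℤ) / 2, by omega⟩
    rw [hx, hy, hz]
    have a4 : ((2 * x + 1) * (2 * y + 1) - (2 * z + 1) ^ 2) = 2 * (2 * x * y + x + y - 2 * z ^ 2 - 2 * z) := by ring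
    rw [a4, Int.mul_ediv_cancel_left _ (by norm_num)]
    linear_combination ((4 : ℤ) ^ c n k) * a4
  rw [sum_congr rfl h2, ← mul_sum]
  have h4 : (4 : ℤ) = 2 * 2 := by norm_num
  conv_lhs => rw [h4]
  apply mul_dvd_mul_left
  apply sum_sym_even
  · intro k hk
    have e : n - (n - k) = k := by omega
    have e2 : c n (n - k) = c n k := by
      unfold c
      rw [e]
      omega
    rw [e, e2, Nat.choose_symm hk, mul_comm (od (t (n - k)) : ℤ)]
  · intro k hk
    have e : c n k = s k := by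
      unfold c
      have e1 : n - k = k := by omega
      rw [e1, ← hk, s_mul]
      omega
    have h5 := s_pos k (by omega)
    obtain ⟨j, hj⟩ : ∃ j, s k = j + 1 := ⟨s k - 1, by omega⟩
    rw [e, hj, pow_succ]
    refine ⟨4 ^ j * 2 * (((od (t k) : ℤ) * (od (t (n - k)) : ℤ) - (od (n.choose k) : ℤ) ^ 2) / 2), ?_⟩
    ring

lemma v_cb (n : ℕ) : v ((2 * n).choose n) = s n := by
  have h := v_choose (2 * n) n (by omega)
  have e : 2 * n - n = n := by omega
  rw [e, s_mul] at h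
  omega

/-- powers of two -/
lemma Sn_pow (j : ℕ) : ∃ x : ℕ, Sn (2 ^ j) = 8 * x ∧ x % 2 = 1 := by
  have h1 := Sn_eq (2 ^ j)
  rw [s_two_pow] at h1
  have h2 := U_mod (2 ^ j) Nat.one_le_two_pow
  have h3 := od_eq ((2 * 2 ^ j).choose (2 ^ j))
  rw [v_cb, s_two_pow] at h3
  have h4 := od_odd ((2 * 2 ^ j).choose (2 ^ j)) (Nat.choose_pos (by omega)).ne'
  refine ⟨U (2 ^ j) / 2, ?_, ?_⟩
  · rw [h1]; omega
  · omega

/-- not a power of two -/
lemma Sn_npow (n : ℕ) (hn : 1 ≤ n) (h : ∀ j, n ≠ 2 ^ j) : 2 ^ (2 * s n + 2) ∣ Sn n := by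
  have hs := s_pos n hn
  have hs2 : 2 ≤ s n := by
    by_contra hc
    obtain ⟨j, hj⟩ := s_eq_one n (by omega)
    exact h j hj
  have h2 := U_mod n hn
  have h3 := od_eq ((2 * n).choose n)
  rw [v_cb] at h3
  have h4 : 4 ∣ (2 * n).choose n := by
    rw [h3]
    obtain ⟨i, hi⟩ : ∃ i, s n = i + 2 := ⟨s n - 2, by omega⟩
    rw [hi, pow_add]
    exact ⟨2 ^ i * od ((2 * n).choose n), by ring⟩
  obtain ⟨y, hy⟩ : 4 ∣ U n := by omega
  rw [Sn_eq, hy]
  refine ⟨y, ?_⟩
  have : (4 : ℕ) = 2 ^ 2 := by norm_num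
  rw [pow_add, this, ← pow_mul]
  ring

end Pool.Agent.Q33.Conv
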